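import Pool.Agent.K1H34.HYS.Stm
import Pool.Agent.H238R2.HY.Main

/-!
# The second order term `2 p` for all `p` above a constant multiple of `√Δ`
-/

set_option autoImplicit false
open Classical Finset

namespace Pool.Agent.K1H34.HYS

theorem log_le_two_sqrt {x : ℝ} (hx : 1 ≤ x) : Real.log x ≤ 2 * Real.sqrt x := by
  have h0 : 0 < Real.sqrt x := Real.sqrt_pos.2 (by linarith)
  have h1 := Real.log_le_sub_one_of_pos h0
  rw [Real.log_sqrt (by linarith)] at h1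
  linarith

/-- `(a^2)^(1/3) b^(1/3) ≤ y` follows from `a^2 b ≤ y^3` -/
theorem cube_le {a b y : ℝ} (ha : 0 ≤ a) (hb : 0 ≤ b) (hy : 0 ≤ y) (h : a ^ 2 * b ≤ y ^ 3) :
    a ^ (2 / 3 : ℝ) * b ^ (1 / 3 : ℝ) ≤ y := by
  have h1 : (a ^ (2 / 3 : ℝ) * b ^ (1 / 3 : ℝ)) ^ 3 = a ^ 2 * b := by
    rw [mul_pow, ← Real.rpow_natCast (a ^ (2 / 3 : ℝ)), ← Real.rpow_mul ha,
      ← Real.rpow_natCast (b ^ (1 / 3 : ℝ)), ← Real.rpow_mul hb]
    norm_num
  have h2 : 0 ≤ a ^ (2 / 3 : ℝ) * b ^ (1 / 3 : ℝ) := by positivity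
  by_contra hlt
  push Not at hlt
  have h3 : y ^ 3 < (a ^ (2 / 3 : ℝ) * b ^ (1 / 3 : ℝ)) ^ 3 := pow_lt_pow_left₀ hlt hy (by norm_num)
  rw [h1] at h3
  linarith

theorem eps_bound (hF : S_FIN) : ∀ ε : ℝ, 0 < ε → ∃ C : ℝ, ∀ (V : Type) [Fintype V]
    (G : SimpleGraph V) [DecidableRel G.Adj] (p : ℕ), 1 ≤ p → 1 ≤ G.maxDegree →
    C * Real.sqrt G.maxDegree ≤ p →
    ∃ N : ℕ, (N : ℝ) ≤ G.maxDegree + (2 + ε) * p ∧ Pool.Agent.H238R2.HY.CircLab G p N := by
  intro ε hε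
  obtain ⟨C1, hC1, hF⟩ := hF
  set A : ℝ := C1 + 1 with hA
  have hA1 : 1 ≤ A := by linarith
  set c : ℝ := ε / (3 * A) with hc
  have hc0 : 0 < c := by positivity
  refine ⟨3 * A / ε + 2 / c ^ 3 + 2 * (16 / ε) ^ 3 / c ^ 2 + 2 / ε, ?_⟩
  intro V _ G _ p hp hD hpC
  set D := G.maxDegree with hDdef
  have hD1 : (1 : ℝ) ≤ D := by exact_mod_cast hD
  have hp1 : (1 : ℝ) ≤ p := by exact_mod_cast hp
  set q : ℝ := Real.sqrt D with hq
  have hq1 : 1 ≤ q := by
    rw [hq, Real.one_le_sqrt]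
    exact hD1
  have hqq : q * q = D := Real.mul_self_sqrt (by linarith)
  have hlog0 : 0 ≤ Real.log D := Real.log_nonneg hD1
  have hlog : Real.log D ≤ 2 * q := log_le_two_sqrt hD1
  have t1 : 0 ≤ 3 * A / ε := by positivity
  have t2 : 0 ≤ 2 / c ^ 3 := by positivity
  have t3 : 0 ≤ 2 * (16 / ε) ^ 3 / c ^ 2 := by positivity
  have t4 : 0 ≤ 2 / ε := by positivity
  have k1 : 3 * A / ε * q ≤ p := by nlinarith
  have k2 : 2 / c ^ 3 * q ≤ p := by nlinarith
  have k3 : 2 * (16 / ε) ^ 3 / c ^ 2 * q ≤ p := by nlinarith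
  have k4 : 2 / ε * q ≤ p := by nlinarith
  by_cases hpD : (p : ℝ) ≤ c * D
  · obtain ⟨N, hN, hlab⟩ := hF V G p D hp hD (by
      intro v
      have h1 : dg G v = G.degree v := by
        unfold dg
        rw [← SimpleGraph.card_neighborFinset_eq_degree]
        congr 1
        ext u
        simp
      rw [h1]
      exact G.degree_le_maxDegree v)
    refine ⟨N, le_trans hN ?_, hlab⟩
    have e1 : C1 * q ≤ ε / 3 * p := by
      have : A * q ≤ ε / 3 * p := by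
        calc A * q = ε / 3 * (3 * A / ε * q) := by field_simp
          _ ≤ ε / 3 * p := mul_le_mul_of_nonneg_left k1 (by positivity)
      nlinarith
    have e2 : C1 * ((p : ℝ) ^ (2 / 3 : ℝ) * Real.log D ^ (1 / 3 : ℝ)) ≤ ε / 3 * p := by
      have h1 : (p : ℝ) ^ (2 / 3 : ℝ) * Real.log D ^ (1 / 3 : ℝ) ≤ c * p := by
        apply cube_le (by positivity) hlog0 (by positivity)
        have h2 : 2 * q ≤ c ^ 3 * p := by
          calc 2 * q = c ^ 3 * (2 / c ^ 3 * q) := by field_simp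
            _ ≤ c ^ 3 * p := mul_le_mul_of_nonneg_left k2 (by positivity)
        calc (p : ℝ) ^ 2 * Real.log D ≤ p ^ 2 * (c ^ 3 * p) := by
              apply mul_le_mul_of_nonneg_left _ (by positivity)
              linarith
          _ = (c * p) ^ 3 := by ring
      have h3 : A * (c * p) = ε / 3 * p := by
        rw [hc]
        field_simp
      have h4 : 0 ≤ (p : ℝ) ^ (2 / 3 : ℝ) * Real.log D ^ (1 / 3 : ℝ) := by positivity
      have h5 : C1 * ((p : ℝ) ^ (2 / 3 : ℝ) * Real.log D ^ (1 / 3 : ℝ)) ≤ A * (c * p) :=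
        mul_le_mul (by linarith) h1 h4 (by linarith)
      linarith
    have e3 : C1 * ((p : ℝ) ^ 2 / D) ≤ ε / 3 * p := by
      have h1 : (p : ℝ) ^ 2 / D ≤ c * p := by
        rw [div_le_iff₀ (by linarith)]
        nlinarith
      have h3 : A * (c * p) = ε / 3 * p := by
        rw [hc]
        field_simp
      have h5 : C1 * ((p : ℝ) ^ 2 / D) ≤ A * (c * p) :=
        mul_le_mul (by linarith) h1 (by positivity) (by linarith)
      linarith
    have e4 : C1 * err D p ≤ ε * p := by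
      unfold err
      have : C1 * (Real.sqrt D + (p : ℝ) ^ (2 / 3 : ℝ) * Real.log D ^ (1 / 3 : ℝ) +
          (p : ℝ) ^ 2 / D) = C1 * q + C1 * ((p : ℝ) ^ (2 / 3 : ℝ) * Real.log D ^ (1 / 3 : ℝ)) +
          C1 * ((p : ℝ) ^ 2 / D) := by
        rw [hq]
        ring
      rw [this]
      linarith
    linarith
  · push Not at hpD
    obtain ⟨N, hN, hlab⟩ := Pool.Agent.H238R2.HY.main G p hp
    refine ⟨N, le_trans hN ?_, hlab⟩
    have e1 : Pool.Agent.H238R2.HY.err D ≤ ε / 16 * p := by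
      unfold Pool.Agent.H238R2.HY.err
      apply cube_le (by positivity) hlog0 (by positivity)
      have h1 : (c * D) ^ 2 ≤ (p : ℝ) ^ 2 := pow_le_pow_left₀ (by positivity) hpD.le 2
      have h2 : (2 * (16 / ε) ^ 3 / c ^ 2 * q) * (c * D) ^ 2 ≤ (p : ℝ) * p ^ 2 :=
        mul_le_mul k3 h1 (by positivity) (by positivity)
      have h3 : (2 * (16 / ε) ^ 3 / c ^ 2 * q) * (c * D) ^ 2 = (16 / ε) ^ 3 * (2 * q * D ^ 2) := by
        field_simp
      rw [h3] at h2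
      have h4 : 2 * q * (D : ℝ) ^ 2 ≤ (ε / 16) ^ 3 * ((p : ℝ) * p ^ 2) := by
        calc 2 * q * (D : ℝ) ^ 2 = (ε / 16) ^ 3 * ((16 / ε) ^ 3 * (2 * q * D ^ 2)) := by
              field_simp
          _ ≤ (ε / 16) ^ 3 * ((p : ℝ) * p ^ 2) := mul_le_mul_of_nonneg_left h2 (by positivity)
      calc (D : ℝ) ^ 2 * Real.log D ≤ D ^ 2 * (2 * q) := by
            apply mul_le_mul_of_nonneg_left hlog (by positivity)
        _ ≤ (ε / 16) ^ 3 * ((p : ℝ) * p ^ 2) := by linarith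
        _ = (ε / 16 * p) ^ 3 := by ring
    have e2 : 2 ≤ ε * p := by
      have : 2 / ε * 1 ≤ 2 / ε * q := mul_le_mul_of_nonneg_left hq1 t4
      have h3 : 2 / ε ≤ p := by linarith
      rwa [div_le_iff₀ hε, mul_comm] at h3
    nlinarith
  
end Pool.Agent.K1H34.HYS
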