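import Pool.Agent.K1H34.HYS.Stm
import Pool.Agent.H238R2.HY.Main

/-!
# Assembly
-/

set_option autoImplicit false
open Classical Finset

namespace Pool.Agent.K1H34.HYS

theorem dg_eq {V : Type} [Fintype V] (G : SimpleGraph V) (v : V) : dg G v = G.degree v := by
  unfold dg
  rw [← SimpleGraph.card_neighborFinset_eq_degree]
  congr 1
  ext u
  simp

/-- the number of the neighbours in the blocks which are not near `m` -/
theorem far_count (hN : S_NEAR) {V : Type} [Fintype V] (G : SimpleGraph V) (c s : V → ℕ)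
    (M K r D : ℕ) (x : ℝ) (hR : 2 * (2 * r + 1) < M) (hMK : M ≤ K) (hD : ∀ v, dg G v ≤ D)
    (hs : ∀ v, c v < M → s v = c v)
    (hc : ∀ v, ∀ y < K, ((dg G v : ℝ) - x * D) / K ≤ cnt G c v y)
    (v : V) (m : ℕ) (hm : m < M) :
    ((univ.filter (fun u => G.Adj v u ∧ ¬ near M r m (s u))).card : ℝ) ≤
      (D : ℝ) * (1 - (2 * r + 1) / K) + (2 * r + 1) * (x * D) / K := by
  obtain ⟨hsym, hcard⟩ := hN M r (by omega)
  set W := (range M).filter (fun i => near M r i m) with hW
  have hWc : W.card = 2 * r + 1 := hcard m hm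
  have hKpos : (0 : ℝ) < K := by
    have : 0 < K := by omega
    exact_mod_cast this
  -- the neighbours in the near cells
  have h1 : ∑ i ∈ W, cnt G c v i ≤
      (univ.filter (fun u => G.Adj v u ∧ near M r m (s u))).card := by
    unfold cnt
    rw [← Finset.card_biUnion]
    · apply Finset.card_le_card
      intro u hu
      rw [mem_biUnion] at hu
      obtain ⟨i, hi, hu⟩ := hu
      rw [mem_filter] at hu
      rw [hW, mem_filter, mem_range] at hi
      rw [mem_filter]
      refine ⟨mem_univ _, hu.2.1, ?_⟩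
      rw [hs u (by rw [hu.2.2]; exact hi.1), hu.2.2, hsym]
      exact hi.2
    · intro i _ j _ hij
      rw [Function.onFun, Finset.disjoint_left]
      intro u hu hu'
      rw [mem_filter] at hu hu'
      exact hij (hu.2.2.symm.trans hu'.2.2)
  have h2 : (univ.filter (fun u => G.Adj v u ∧ near M r m (s u))).card +
      (univ.filter (fun u => G.Adj v u ∧ ¬ near M r m (s u))).card = dg G v := by
    unfold dg
    rw [← Finset.card_filter_add_card_filter_not (s := univ.filter (fun u => G.Adj v u))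
      (fun u => near M r m (s u)), Finset.filter_filter, Finset.filter_filter]
  have h3 : ((2 * r + 1 : ℕ) : ℝ) * (((dg G v : ℝ) - x * D) / K) ≤
      ((univ.filter (fun u => G.Adj v u ∧ near M r m (s u))).card : ℝ) := by
    calc ((2 * r + 1 : ℕ) : ℝ) * (((dg G v : ℝ) - x * D) / K)
        = ∑ _i ∈ W, (((dg G v : ℝ) - x * D) / K) := by
          rw [Finset.sum_const, hWc, nsmul_eq_mul]
      _ ≤ ∑ i ∈ W, (cnt G c v i : ℝ) := by
          apply Finset.sum_le_sum
          intro i hi
          rw [hW, mem_filter, mem_range] at hi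
          exact hc v i (by omega)
      _ ≤ _ := by exact_mod_cast h1
  have h4 : ((univ.filter (fun u => G.Adj v u ∧ near M r m (s u))).card : ℝ) +
      ((univ.filter (fun u => G.Adj v u ∧ ¬ near M r m (s u))).card : ℝ) = dg G v := by
    exact_mod_cast h2
  have h5 : (dg G v : ℝ) ≤ D := by exact_mod_cast hD v
  have h6 : ((2 * r + 1 : ℕ) : ℝ) ≤ K := by
    have : 2 * r + 1 ≤ K := by omega
    exact_mod_cast this
  have h7 : 0 ≤ 1 - ((2 * r + 1 : ℕ) : ℝ) / K := by
    rw [sub_nonneg, div_le_one hKpos]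
    exact h6
  have h8 : (dg G v : ℝ) * (1 - ((2 * r + 1 : ℕ) : ℝ) / K) ≤
      D * (1 - ((2 * r + 1 : ℕ) : ℝ) / K) := mul_le_mul_of_nonneg_right h5 h7
  have h9 : (dg G v : ℝ) - ((2 * r + 1 : ℕ) : ℝ) * (((dg G v : ℝ) - x * D) / K) =
      (dg G v : ℝ) * (1 - ((2 * r + 1 : ℕ) : ℝ) / K) + ((2 * r + 1 : ℕ) : ℝ) * (x * D) / K := by
    field_simp
    ring
  push_cast at h3 h8 h9
  linarith

theorem t_FIN (hN : S_NEAR) (hdist : S_DIST) (hcell : S_CELL) (hvlab : S_VLAB) (hfrac : S_FRAC)
    (hedge : S_EDGE) (hnum : S_NUM) : S_FIN := by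
  obtain ⟨C, hC0, hC⟩ := hnum
  refine ⟨C, hC0, ?_⟩
  intro V _ G p D hp hD hdeg
  rcases hC D p hD hp with h | h
  · refine ⟨2 * G.maxDegree + 2 * p, ?_, ?_⟩
    · refine le_trans ?_ h
      have h1 : G.maxDegree ≤ D := by
        apply SimpleGraph.maxDegree_le_of_forall_degree_le
        intro v
        rw [← dg_eq]
        exact hdeg v
      have h2 : 2 * G.maxDegree + 2 * p ≤ 2 * D + 2 * p := by omega
      exact_mod_cast h2
    · exact Pool.Agent.H238R2.HY.trivial_bound G p hp
  obtain ⟨b, K, M, r, x, hb, hpr, hR, hDM, hMK, hx0, hx1, hexp, hxb, hmain, hNle⟩ := h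
  obtain ⟨c, hcK, hc⟩ := hcell V G K D x (by omega) hD hdeg hx0 hx1 hexp
  obtain ⟨f, hf1, hf2, hf3⟩ := hvlab V G c b M hb (fun v => lt_of_le_of_lt (hdeg v) hDM) (by
    intro v hv
    have h1 := (hc v (c v) (hcK v)).1
    have h2 : (cnt G c v (c v) : ℝ) < b := lt_of_le_of_lt h1 hxb
    exact_mod_cast h2)
  set s : V → ℕ := fun v => f v / b with hs
  have hsM : ∀ v, s v < M := by
    intro v
    rw [hs]
    exact Nat.div_lt_of_lt_mul (hf1 v)
  obtain ⟨a, ha1, ha2, ha3⟩ := hfrac V G s M r b hsM hR (by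
    intro v m hm
    exact le_trans (far_count hN G c s M K r D x hR hMK hdeg hf3 (fun v y hy => (hc v y hy).2)
      v m hm) hmain)
  obtain ⟨y, hy1, hy2, hy3⟩ := hedge V G a b hb ha1 ha3
  refine ⟨b * M, hNle, f, fun e => Sym2.lift ⟨y, hy1⟩ e, hf1, ?_, hf2, ?_, ?_⟩
  · intro e
    induction e using Sym2.ind with
    | _ u v =>
      intro he
      rw [SimpleGraph.mem_edgeSet] at he
      simp only [Sym2.lift_mk]
      have h1 := (ha2 u v he).1
      rw [← hy2 u v he] at h1
      rw [mul_comm]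
      exact (Nat.div_lt_iff_lt_mul (by omega)).1 h1
  · intro u v w huv huw hvw
    simp only [Sym2.lift_mk]
    exact hy3 u v w huv huw hvw
  · intro u v huv
    simp only [Sym2.lift_mk]
    obtain ⟨h1, h2, h3⟩ := ha2 u v huv
    have h4 : y u v < b * M := by
      rw [← hy2 u v huv] at h1
      rw [mul_comm]
      exact (Nat.div_lt_iff_lt_mul (by omega)).1 h1
    refine hdist M r b p (f u) (y u v) hb hpr (hf1 u) h4 ?_
    rw [hy2 u v huv]
    exact h2

end Pool.Agent.K1H34.HYS
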