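import Pool.Agent.K1H34.HYS.Fin
import Pool.Agent.K1H34.HYS.Eps
import Pool.Agent.K1H8.HYS.Near
import Pool.Agent.K1H31.HYS.Cell
import Pool.Agent.K1H11.HYS.Vlab
import Pool.Agent.K1H67.HYS.Rnd
import Pool.Agent.K1H33.HYS.Frac
import Pool.Agent.K1H33.HYS.Num
import Pool.Agent.K1H39.HYS.Edge

/-!
# The theorem
-/

set_option autoImplicit false

namespace Pool.Agent.K1H34.HYS

theorem final : S_FIN :=
  t_FIN Pool.Agent.K1H8.HYS.t_NEAR Pool.Agent.K1H8.HYS.t_DIST Pool.Agent.K1H31.HYS.t_CELL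
    Pool.Agent.K1H11.HYS.t_VLAB
    (Pool.Agent.K1H33.HYS.t_FRAC Pool.Agent.K1H8.HYS.t_NEAR Pool.Agent.K1H67.HYS.t_RND)
    Pool.Agent.K1H39.HYS.t_EDGE Pool.Agent.K1H33.HYS.t_NUM

end Pool.Agent.K1H34.HYS
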