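import Mathlib

/-!
# (p,1)-total labelings: the coefficient of `p` is 2 for all `p` above `√Δ`: interface

Theorem: `N = D + 2 p + C (√D + p^(2/3) (log D)^(1/3) + p^2 / D)` labels on a circle suffice for
every graph of maximum degree `D` and every `p ≥ 1`.

Plan.  The `N = b M` labels form `M` blocks of length `b`.  The vertices get random cells `c v < K`
(`S_CELL`); the cells `y < M` are the blocks, the vertices of the other cells are deferred.  The
vertices which are not deferred get labels in their blocks greedily, then the deferred vertices get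
arbitrary labels greedily (`S_VLAB`).  Every edge `u v` is distributed uniformly over all blocks
which are not near the block of `u` or of `v`; the fractional distribution is rounded by linear
algebra (`S_RND`, `S_FRAC`), and the edges of every block are labelled by Vizing's theorem
(`S_EDGE`).
-/

set_option autoImplicit false
open Classical Finset

namespace Pool.Agent.K1H34.HYS

/-- the degree of `v` -/
noncomputable def dg {V : Type} [Fintype V] (G : SimpleGraph V) (v : V) : ℕ :=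
  (univ.filter (fun u => G.Adj v u)).card

/-- the number of neighbours `u` of `v` with `c u = y` -/
noncomputable def cnt {V : Type} [Fintype V] (G : SimpleGraph V) (c : V → ℕ) (v : V) (y : ℕ) : ℕ :=
  (univ.filter (fun u => G.Adj v u ∧ c u = y)).card

/-- the blocks `i, j < M` have circular distance at most `r` -/
def near (M r i j : ℕ) : Prop := (i + M - j) % M ≤ r ∨ (j + M - i) % M ≤ r

/-- NEAR: symmetry and the number of near blocks -/
def S_NEAR : Prop :=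
  ∀ M r : ℕ, 2 * r + 1 ≤ M → (∀ i j, near M r i j ↔ near M r j i) ∧
    ∀ j, j < M → ((range M).filter (fun i => near M r i j)).card = 2 * r + 1

/-- DIST: labels in blocks which are not near have circular distance at least `p` -/
def S_DIST : Prop :=
  ∀ M r b p x y : ℕ, 1 ≤ b → p ≤ r * b → x < b * M → y < b * M → ¬ near M r (y / b) (x / b) →
    (p : ℤ) ≤ |(x : ℤ) - (y : ℤ)| ∧ |(x : ℤ) - (y : ℤ)| ≤ ((b * M : ℕ) : ℤ) - p

/-- CELL: random cells (Chernoff bounds for both tails and the symmetric local lemma) -/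
def S_CELL : Prop :=
  ∀ (V : Type) [Fintype V] (G : SimpleGraph V) (K D : ℕ) (x : ℝ), 1 ≤ K → 1 ≤ D →
    (∀ v, dg G v ≤ D) → 0 ≤ x → x ≤ 1 →
    8 * (K * Real.exp (-(x ^ 2 * D / (3 * K)))) * ((D * D : ℕ) : ℝ) ≤ 1 →
    ∃ c : V → ℕ, (∀ v, c v < K) ∧ ∀ v, ∀ y < K,
      (cnt G c v y : ℝ) ≤ (1 + x) * D / K ∧ ((dg G v : ℝ) - x * D) / K ≤ cnt G c v y

/-- VLAB: labels of the vertices -/
def S_VLAB : Prop :=
  ∀ (V : Type) [Fintype V] (G : SimpleGraph V) (c : V → ℕ) (b M : ℕ), 1 ≤ b →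
    (∀ v, dg G v < b * M) → (∀ v, c v < M → cnt G c v (c v) < b) →
    ∃ x : V → ℕ, (∀ v, x v < b * M) ∧ (∀ u v, G.Adj u v → x u ≠ x v) ∧
      ∀ v, c v < M → x v / b = c v

/-- RND: rounding of a fractional assignment (every `e` lies in at most two of the sets `j`) -/
def S_RND : Prop :=
  ∀ (E J : Type) [Fintype E] [Fintype J] (M : ℕ) (A : E → Finset J) (w : E → Fin M → ℝ)
    (T : J → Fin M → ℝ),
    (∀ e, (A e).card ≤ 2) → (∀ e m, 0 ≤ w e m) → (∀ e, ∑ m, w e m = 1) →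
    (∀ j m, ∑ e ∈ univ.filter (fun e => j ∈ A e), w e m ≤ T j m) →
    ∃ a : E → Fin M, (∀ e, 0 < w e (a e)) ∧
      ∀ j m, ((univ.filter (fun e => j ∈ A e ∧ a e = m)).card : ℝ) < T j m + 4

/-- FRAC: the blocks of the edges -/
def S_FRAC : Prop :=
  ∀ (V : Type) [Fintype V] (G : SimpleGraph V) (s : V → ℕ) (M r b : ℕ),
    (∀ v, s v < M) → 2 * (2 * r + 1) < M →
    (∀ v, ∀ m < M, ((univ.filter (fun u => G.Adj v u ∧ ¬ near M r m (s u))).card : ℝ) ≤
      ((M : ℝ) - 2 * (2 * r + 1)) * ((b : ℝ) - 4)) →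
    ∃ a : V → V → ℕ, (∀ u v, a u v = a v u) ∧
      (∀ u v, G.Adj u v → a u v < M ∧ ¬ near M r (a u v) (s u) ∧ ¬ near M r (a u v) (s v)) ∧
      ∀ v m, (univ.filter (fun u => G.Adj v u ∧ a v u = m)).card < b

/-- EDGE: labels of the edges -/
def S_EDGE : Prop :=
  ∀ (V : Type) [Fintype V] (G : SimpleGraph V) (a : V → V → ℕ) (b : ℕ), 1 ≤ b →
    (∀ u v, a u v = a v u) →
    (∀ v m, (univ.filter (fun u => G.Adj v u ∧ a v u = m)).card < b) →
    ∃ y : V → V → ℕ, (∀ u v, y u v = y v u) ∧ (∀ u v, G.Adj u v → y u v / b = a u v) ∧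
      ∀ u v v', G.Adj u v → G.Adj u v' → v ≠ v' → y u v ≠ y u v'

/-- the error term -/
noncomputable def err (D p : ℕ) : ℝ :=
  Real.sqrt D + (p : ℝ) ^ (2 / 3 : ℝ) * Real.log D ^ (1 / 3 : ℝ) + (p : ℝ) ^ 2 / D

/-- NUM: the parameters -/
def S_NUM : Prop :=
  ∃ C : ℝ, 0 ≤ C ∧ ∀ D p : ℕ, 1 ≤ D → 1 ≤ p →
    (((2 * D + 2 * p : ℕ) : ℝ) ≤ D + 2 * p + C * err D p) ∨
    ∃ (b K M r : ℕ) (x : ℝ), 1 ≤ b ∧ p ≤ r * b ∧ 2 * (2 * r + 1) < M ∧ D < b * M ∧ M ≤ K ∧
      0 ≤ x ∧ x ≤ 1 ∧ 8 * (K * Real.exp (-(x ^ 2 * D / (3 * K)))) * ((D * D : ℕ) : ℝ) ≤ 1 ∧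
      (1 + x) * D / K < b ∧
      (D : ℝ) * (1 - (2 * r + 1) / K) + (2 * r + 1) * (x * D) / K ≤
        ((M : ℝ) - 2 * (2 * r + 1)) * ((b : ℝ) - 4) ∧
      ((b * M : ℕ) : ℝ) ≤ D + 2 * p + C * err D p

/-- FIN: the theorem (labels `0, …, N - 1` on a circle) -/
def S_FIN : Prop :=
  ∃ C : ℝ, 0 ≤ C ∧ ∀ (V : Type) [Fintype V] (G : SimpleGraph V) (p D : ℕ), 1 ≤ p → 1 ≤ D →
    (∀ v, dg G v ≤ D) →
    ∃ N : ℕ, (N : ℝ) ≤ D + 2 * p + C * err D p ∧
      ∃ (fV : V → ℕ) (fE : Sym2 V → ℕ),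
        (∀ v, fV v < N) ∧ (∀ e ∈ G.edgeSet, fE e < N) ∧
        (∀ u v, G.Adj u v → fV u ≠ fV v) ∧
        (∀ u v w, G.Adj u v → G.Adj u w → v ≠ w → fE s(u, v) ≠ fE s(u, w)) ∧
        (∀ u v, G.Adj u v → (p : ℤ) ≤ |(fV u : ℤ) - (fE s(u, v) : ℤ)| ∧
          |(fV u : ℤ) - (fE s(u, v) : ℤ)| ≤ (N : ℤ) - p)

end Pool.Agent.K1H34.HYS
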